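import Pool.Agent.W584.SBFin

/-!
# Coinvariants of the top homology of the stable building need not be torsion

The definitions of lattices, of the reduced total complex of the `k`-fold simplicial pointed set
`D^k(M)`, of `H_i(𝐃(M))` and of its coinvariants are in `Pool/Agent/W584/SB.lean`.
-/

namespace Pool.Agent.Results.MP_89c978_gt.NonTorsionCoinvariants

open Pool.Agent.W584 Pool.Agent.W584.SB

/-- For the Euclidean domain `R = ℤ[1/11]` and `n = 2`, the group of coinvariants of `GL_n(R)` on
`H_{2n-2}(𝐃(R^n))` contains an element of infinite order. -/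
theorem result :
    ∃ (R : Type) (_ : EuclideanDomain R), Nonempty (R ≃+* Localization.Away (11 : ℤ)) ∧
      ∃ x : Coinvariants R (Fin 2 → R) (2 * 2 - 2), ∀ N : ℤ, N ≠ 0 → N • x ≠ 0 := by
  let _ : EuclideanDomain Z11 := euclideanZ11
  exact ⟨Z11, euclideanZ11, ⟨RingEquiv.refl _⟩, exists_nontorsion isZ11_euclidean⟩

end Pool.Agent.Results.MP_89c978_gt.NonTorsionCoinvariants
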